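import Mathlib

set_option autoImplicit false

open Set Real

namespace Pool.Agent.N537.OV

/-- The elementary inequality `x cos x ≤ sin x` in the form needed. -/
lemma x_cos_le_sin {x : ℝ} (h0 : 0 < x) (h1 : x < π / 2) : x * cos x ≤ sin x := by
  have h2 := lt_tan h0 h1
  have hc : 0 < cos x := cos_pos_of_mem_Ioo ⟨by linarith, h1⟩
  rw [tan_eq_sin_div_cos, lt_div_iff₀ hc] at h2
  exact h2.le

lemma tan_key {a b : ℝ} (ha : a ∈ Ioo (-(π / 2)) (π / 2)) (hb : b ∈ Ioo (-(π / 2)) (π / 2))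
    (hab : b < a) (hab' : a - b < π / 2) :
    (1 + tan a * tan b) * (a - b) ≤ tan a - tan b := by
  have hca : 0 < cos a := cos_pos_of_mem_Ioo ha
  have hcb : 0 < cos b := cos_pos_of_mem_Ioo hb
  have hx : 0 < a - b := by linarith
  rw [tan_eq_sin_div_cos, tan_eq_sin_div_cos]
  have h := x_cos_le_sin hx hab'
  rw [cos_sub, sin_sub] at h
  have e1 : (1 + sin a / cos a * (sin b / cos b)) * (a - b) =
      ((a - b) * (cos a * cos b + sin a * sin b)) / (cos a * cos b) := by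
    field_simp
  have e2 : sin a / cos a - sin b / cos b =
      (sin a * cos b - cos a * sin b) / (cos a * cos b) := by
    field_simp
  rw [e1, e2]
  exact div_le_div_of_nonneg_right h (by positivity)

/-- the potential `q₁² t₁ + 2 q₁ q₂ t₀ + q₂² t₂` with `q₁ = (1+μ)/2`, `q₂ = (1-μ)/2`. -/
noncomputable def UU (a b μ : ℝ) : ℝ :=
  ((1 + μ) / 2) ^ 2 * tan (a + b) + 2 * ((1 + μ) / 2) * ((1 - μ) / 2) * tan a +
    ((1 - μ) / 2) ^ 2 * tan (a - b)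

/-- the derivative of the potential in `μ` -/
noncomputable def HH (a b μ : ℝ) : ℝ :=
  (1 + μ) / 2 * (tan (a + b) - tan a) + (1 - μ) / 2 * (tan a - tan (a - b))

lemma UU_bounds {a b μ : ℝ} (hb : 0 ≤ b) (h1 : a + b < π / 2) (h2 : -(π / 2) < a - b)
    (hμ : |μ| ≤ 1) : tan (a - b) ≤ UU a b μ ∧ UU a b μ ≤ tan (a + b) := by
  have hm1 : a + b ∈ Ioo (-(π / 2)) (π / 2) := ⟨by linarith, h1⟩
  have hm0 : a ∈ Ioo (-(π / 2)) (π / 2) := ⟨by linarith, by linarith⟩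
  have hm2 : a - b ∈ Ioo (-(π / 2)) (π / 2) := ⟨h2, by linarith⟩
  have h10 : tan a ≤ tan (a + b) := strictMonoOn_tan.monotoneOn hm0 hm1 (by linarith)
  have h02 : tan (a - b) ≤ tan a := strictMonoOn_tan.monotoneOn hm2 hm0 (by linarith)
  obtain ⟨hμ1, hμ2⟩ := abs_le.1 hμ
  have hq1 : 0 ≤ (1 + μ) / 2 := by linarith
  have hq2 : 0 ≤ (1 - μ) / 2 := by linarith
  unfold UU
  constructor
  · nlinarith [mul_nonneg (mul_nonneg hq1 hq1) (sub_nonneg.2 h10),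
      mul_nonneg (mul_nonneg hq1 hq1) (sub_nonneg.2 h02),
      mul_nonneg (mul_nonneg hq1 hq2) (sub_nonneg.2 h02)]
  · nlinarith [mul_nonneg (mul_nonneg hq2 hq2) (sub_nonneg.2 h10),
      mul_nonneg (mul_nonneg hq2 hq2) (sub_nonneg.2 h02),
      mul_nonneg (mul_nonneg hq1 hq2) (sub_nonneg.2 h10)]

/-- The Riccati inequality, in the form of an inequality between numbers. -/
theorem riccati {t a b μ m κ2 : ℝ} (ht : 0 < t) (hb : 0 < b) (h1 : a + b < π / 2)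
    (h2 : -(π / 2) < a - b) (hμ : |μ| ≤ 1) (hκ : 0 ≤ κ2) (hm : m ^ 2 ≤ κ2 * (1 - μ ^ 2)) :
    -t * (((1 + μ) / 2) ^ 2 * ((1 + tan (a + b) ^ 2) * (t * ((1 + μ) / 2))) +
        2 * ((1 + μ) / 2) * ((1 - μ) / 2) * ((1 + tan a ^ 2) * (t / 2)) +
        ((1 - μ) / 2) ^ 2 * ((1 + tan (a - b) ^ 2) * (t * ((1 - μ) / 2))) +
        HH a b μ * ((1 - μ ^ 2) / (2 * b / t) + m)) +
      (-t * UU a b μ) ^ 2 + t ^ 2 ≤ κ2 := by
  have hm1 : a + b ∈ Ioo (-(π / 2)) (π / 2) := ⟨by linarith, h1⟩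
  have hm0 : a ∈ Ioo (-(π / 2)) (π / 2) := ⟨by linarith, by linarith⟩
  have hm2 : a - b ∈ Ioo (-(π / 2)) (π / 2) := ⟨h2, by linarith⟩
  obtain ⟨hμ1, hμ2⟩ := abs_le.1 hμ
  have k1 := tan_key hm1 hm0 (by linarith) (by linarith)
  have k2 := tan_key hm0 hm2 (by linarith) (by linarith)
  have e1 : a + b - a = b := by ring
  have e2 : a - (a - b) = b := by ring
  rw [e1] at k1
  rw [e2] at k2
  unfold HH UU
  set t1 := tan (a + b)
  set t0 := tan a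
  set t2 := tan (a - b)
  set q1 : ℝ := (1 + μ) / 2 with hq1d
  set q2 : ℝ := (1 - μ) / 2 with hq2d
  have hq1 : 0 ≤ q1 := by rw [hq1d]; linarith
  have hq2 : 0 ≤ q2 := by rw [hq2d]; linarith
  have hμq : 1 - μ ^ 2 = 4 * q1 * q2 := by rw [hq1d, hq2d]; ring
  have hq : q2 = 1 - q1 := by rw [hq1d, hq2d]; ring
  rw [hμq] at hm ⊢
  set H : ℝ := q1 * (t1 - t0) + q2 * (t0 - t2) with hH
  -- the cross term
  have hx : -(t * H * m) ≤ κ2 + t ^ 2 * q1 * q2 * H ^ 2 := by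
    have hQ : 0 ≤ t ^ 2 * q1 * q2 * H ^ 2 := by positivity
    refine le_trans (neg_le_abs _) ?_
    refine abs_le_of_sq_le_sq ?_ (by linarith)
    have h3 := mul_le_mul_of_nonneg_left hm (by positivity : (0:ℝ) ≤ (t * H) ^ 2)
    nlinarith [sq_nonneg (κ2 - t ^ 2 * q1 * q2 * H ^ 2)]
  -- the main term
  have hHb : (q1 * (1 + t1 * t0) + q2 * (1 + t0 * t2)) * b ≤ H := by
    rw [hH]
    nlinarith [mul_le_mul_of_nonneg_left k1 hq1, mul_le_mul_of_nonneg_left k2 hq2]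
  have hHb' : q1 * (1 + t1 * t0) + q2 * (1 + t0 * t2) ≤ H / b := by
    rw [le_div_iff₀ hb]; exact hHb
  have hdiv : 4 * q1 * q2 / (2 * b / t) = 2 * t * q1 * q2 * (1 / b) := by
    field_simp
    ring
  have hmain : q1 ^ 2 * ((1 + t1 ^ 2) * q1) + q1 * q2 * (1 + t0 ^ 2) + q2 ^ 2 * ((1 + t2 ^ 2) * q2)
      = (q1 ^ 2 * t1 + 2 * q1 * q2 * t0 + q2 ^ 2 * t2) ^ 2 + q1 * q2 * H ^ 2 + 1
        - 2 * q1 * q2 * (q1 * (1 + t1 * t0) + q2 * (1 + t0 * t2)) := by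
    rw [hH, hq]; ring
  have hfin := mul_le_mul_of_nonneg_left hHb' (by positivity : (0:ℝ) ≤ 2 * t ^ 2 * q1 * q2)
  rw [hdiv]
  have e3 : H / b = H * (1 / b) := by ring
  rw [e3] at hfin
  have hgoal : -t * (q1 ^ 2 * ((1 + t1 ^ 2) * (t * q1)) + 2 * q1 * q2 * ((1 + t0 ^ 2) * (t / 2)) +
        q2 ^ 2 * ((1 + t2 ^ 2) * (t * q2)) + H * (2 * t * q1 * q2 * (1 / b) + m)) +
      (-t * (q1 ^ 2 * t1 + 2 * q1 * q2 * t0 + q2 ^ 2 * t2)) ^ 2 + t ^ 2 =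
      -(t ^ 2 * q1 * q2 * H ^ 2) +
        (2 * t ^ 2 * q1 * q2 * (q1 * (1 + t1 * t0) + q2 * (1 + t0 * t2)) -
          2 * t ^ 2 * q1 * q2 * (H * (1 / b))) + -(t * H * m) := by
    linear_combination (-t ^ 2) * hmain
  rw [hgoal]
  linarith [hx, hfin]

end Pool.Agent.N537.OV
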