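import Mathlib
import Pool.Agent.N537.OV.Alg

set_option autoImplicit false

open Set Real MeasureTheory Filter Topology

namespace Pool.Agent.N537.OV

variable {E : Type*} [NormedAddCommGroup E] [InnerProductSpace ℝ E]

lemma hasDerivAt_tan_comp {a : ℝ → ℝ} {a' s : ℝ} (ha : HasDerivAt a a' s)
    (c : cos (a s) ≠ 0) : HasDerivAt (fun x => tan (a x)) ((1 + tan (a s) ^ 2) * a') s := by
  have h := (Real.hasDerivAt_tan c).comp s ha
  have e : 1 / cos (a s) ^ 2 = 1 + tan (a s) ^ 2 := by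
    rw [← inv_one_add_tan_sq c]
    simp
  rw [e] at h
  exact h

lemma hasDerivAt_UU {a b μ : ℝ → ℝ} {a' b' μ' s : ℝ} (ha : HasDerivAt a a' s)
    (hb : HasDerivAt b b' s) (hμ : HasDerivAt μ μ' s) (c1 : cos (a s + b s) ≠ 0)
    (c0 : cos (a s) ≠ 0) (c2 : cos (a s - b s) ≠ 0) :
    HasDerivAt (fun s => UU (a s) (b s) (μ s))
      (((1 + μ s) / 2) ^ 2 * ((1 + tan (a s + b s) ^ 2) * (a' + b')) +
        2 * ((1 + μ s) / 2) * ((1 - μ s) / 2) * ((1 + tan (a s) ^ 2) * a') +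
        ((1 - μ s) / 2) ^ 2 * ((1 + tan (a s - b s) ^ 2) * (a' - b')) +
        HH (a s) (b s) (μ s) * μ') s := by
  have d1 := hasDerivAt_tan_comp (a := fun x => a x + b x) (ha.add hb) c1
  have d0 := hasDerivAt_tan_comp ha c0
  have d2 := hasDerivAt_tan_comp (a := fun x => a x - b x) (ha.sub hb) c2
  have q1 : HasDerivAt (fun x => (1 + μ x) / 2) (μ' / 2) s := (hμ.const_add 1).div_const 2
  have q2 : HasDerivAt (fun x => (1 - μ x) / 2) (-μ' / 2) s := (hμ.const_sub 1).div_const 2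
  have h := (((q1.pow 2).mul d1).add (((q1.const_mul 2).mul q2).mul d0)).add ((q2.pow 2).mul d2)
  unfold UU HH
  refine h.congr_deriv ?_
  simp only [Pi.mul_apply, Pi.pow_apply]
  push_cast
  ring

lemma norm_chord_le {γ T : ℝ → E} (hγ : ∀ s, HasDerivAt γ (T s) s) (hT : ∀ s, ‖T s‖ = 1)
    {a b : ℝ} (hab : a ≤ b) : ‖γ b - γ a‖ ≤ b - a := by
  have h := Convex.norm_image_sub_le_of_norm_hasDerivWithin_le (f := γ) (f' := T) (s := univ)
    (x := a) (y := b) (C := 1) (fun x _ => (hγ x).hasDerivWithinAt) (fun x _ => (hT x).le)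
    convex_univ (mem_univ _) (mem_univ _)
  rw [one_mul, Real.norm_eq_abs, abs_of_nonneg (by linarith)] at h
  exact h

/-- The regularised distance -/
noncomputable def NN (ε : ℝ) (X : ℝ → E) (s : ℝ) : ℝ := √(‖X s‖ ^ 2 + ε ^ 2)

lemma NN_pos {ε : ℝ} (hε : 0 < ε) (X : ℝ → E) (s : ℝ) : 0 < NN ε X s :=
  Real.sqrt_pos.2 (by positivity)

lemma NN_sq (ε : ℝ) (X : ℝ → E) (s : ℝ) : NN ε X s ^ 2 = ‖X s‖ ^ 2 + ε ^ 2 :=
  Real.sq_sqrt (by positivity)

lemma NN_le {ε : ℝ} (hε : 0 < ε) (X : ℝ → E) (s : ℝ) : NN ε X s ≤ ‖X s‖ + ε := by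
  have h := NN_sq ε X s
  have h1 := NN_pos hε X s
  have h2 := norm_nonneg (X s)
  refine abs_le_of_sq_le_sq' ?_ (by positivity) |>.2
  nlinarith

lemma norm_le_NN {ε : ℝ} (X : ℝ → E) (s : ℝ) : ‖X s‖ ≤ NN ε X s :=
  Real.le_sqrt_of_sq_le (by nlinarith [sq_nonneg ε])

lemma hasDerivAt_NN {ε : ℝ} (hε : 0 < ε) {X T : ℝ → E} {s : ℝ} (hX : HasDerivAt X (T s) s) :
    HasDerivAt (NN ε X) (inner ℝ (X s) (T s) / NN ε X s) s := by
  have h := (hX.norm_sq.add_const (ε ^ 2)).sqrt (by positivity)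
  unfold NN
  refine h.congr_deriv ?_
  have h1 := NN_pos hε X s
  unfold NN at h1
  field_simp

/-- the cosine `μ` -/
noncomputable def MM (ε : ℝ) (X T : ℝ → E) (s : ℝ) : ℝ := inner ℝ (X s) (T s) / NN ε X s

lemma hasDerivAt_MM {ε : ℝ} (hε : 0 < ε) {X T K : ℝ → E} {s : ℝ} (hX : HasDerivAt X (T s) s)
    (hT : HasDerivAt T (K s) s) (h1 : ‖T s‖ = 1) :
    HasDerivAt (MM ε X T) ((1 - MM ε X T s ^ 2) / NN ε X s + inner ℝ (X s) (K s) / NN ε X s) s := by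
  have hN := NN_pos hε X s
  have h := (hX.inner ℝ hT).div (hasDerivAt_NN hε hX) hN.ne'
  unfold MM
  refine h.congr_deriv ?_
  rw [real_inner_self_eq_norm_sq, h1]
  field_simp
  ring

lemma abs_MM_le {ε : ℝ} (hε : 0 < ε) (X T : ℝ → E) (s : ℝ) (h1 : ‖T s‖ = 1) :
    |MM ε X T s| ≤ 1 := by
  have hN := NN_pos hε X s
  unfold MM
  rw [abs_div, abs_of_pos hN, div_le_one hN]
  refine (abs_real_inner_le_norm _ _).trans ?_
  rw [h1, mul_one]
  exact norm_le_NN X s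

lemma curv_bound {ε : ℝ} (hε : 0 < ε) (X T K : ℝ → E) (s : ℝ) (h1 : ‖T s‖ = 1)
    (h0 : inner ℝ (T s) (K s) = 0) :
    (inner ℝ (X s) (K s) / NN ε X s) ^ 2 ≤ ‖K s‖ ^ 2 * (1 - MM ε X T s ^ 2) := by
  have hN := NN_pos hε X s
  have hNs := NN_sq ε X s
  unfold MM
  rw [div_pow, div_pow, div_le_iff₀ (by positivity)]
  have e : ‖K s‖ ^ 2 * (1 - inner ℝ (X s) (T s) ^ 2 / NN ε X s ^ 2) * NN ε X s ^ 2 =
      ‖K s‖ ^ 2 * (NN ε X s ^ 2 - inner ℝ (X s) (T s) ^ 2) := by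
    field_simp
  rw [e]
  have hin : inner ℝ (X s) (K s) = inner ℝ (X s - (inner ℝ (X s) (T s)) • T s) (K s) := by
    rw [inner_sub_left, inner_smul_left, h0]; simp
  have hcs := abs_real_inner_le_norm (X s - (inner ℝ (X s) (T s)) • T s) (K s)
  rw [← hin] at hcs
  have hns : ‖X s - (inner ℝ (X s) (T s)) • T s‖ ^ 2 = ‖X s‖ ^ 2 - inner ℝ (X s) (T s) ^ 2 := by
    rw [norm_sub_sq_real, inner_smul_right, norm_smul, mul_pow, h1, Real.norm_eq_abs, sq_abs]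
    ring
  have h3 : inner ℝ (X s) (K s) ^ 2 ≤
      (‖X s - (inner ℝ (X s) (T s)) • T s‖ * ‖K s‖) ^ 2 := by
    rw [← sq_abs (inner ℝ (X s) (K s))]
    exact pow_le_pow_left₀ (abs_nonneg _) hcs 2
  rw [mul_pow, hns] at h3
  nlinarith [mul_nonneg (sq_nonneg ‖K s‖) (sq_nonneg ε)]

/-- the Riccati function -/
noncomputable def RR (t A p ε : ℝ) (X T : ℝ → E) (s : ℝ) : ℝ :=
  -t * UU (t * (s - p) / 2 - A) (t * NN ε X s / 2) (MM ε X T s)

theorem exists_deriv_RR {t A p ε : ℝ} (ht : 0 < t) (hε : 0 < ε) {X T K : ℝ → E} {s : ℝ}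
    (hX : HasDerivAt X (T s) s) (hT : HasDerivAt T (K s) s) (h1 : ‖T s‖ = 1)
    (h0 : inner ℝ (T s) (K s) = 0)
    (hb1 : t * (s - p) / 2 - A + t * NN ε X s / 2 < π / 2)
    (hb2 : -(π / 2) < t * (s - p) / 2 - A - t * NN ε X s / 2) :
    ∃ v : ℝ, HasDerivAt (RR t A p ε X T) v s ∧ v + RR t A p ε X T s ^ 2 + t ^ 2 ≤ ‖K s‖ ^ 2 := by
  have hN := NN_pos hε X s
  set a : ℝ := t * (s - p) / 2 - A with ha
  set b : ℝ := t * NN ε X s / 2 with hb
  have hb0 : 0 < b := by rw [hb]; positivity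
  have c1 : cos (a + b) ≠ 0 := (cos_pos_of_mem_Ioo ⟨by linarith, hb1⟩).ne'
  have c0 : cos a ≠ 0 := (cos_pos_of_mem_Ioo ⟨by linarith, by linarith⟩).ne'
  have c2 : cos (a - b) ≠ 0 := (cos_pos_of_mem_Ioo ⟨hb2, by linarith⟩).ne'
  have da : HasDerivAt (fun s => t * (s - p) / 2 - A) (t / 2) s := by
    have := ((((hasDerivAt_id s).sub_const p).const_mul t).div_const 2).sub_const A
    simpa using this
  have db : HasDerivAt (fun s => t * NN ε X s / 2) (t * MM ε X T s / 2) s :=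
    ((hasDerivAt_NN hε hX).const_mul t).div_const 2
  have dm := hasDerivAt_MM hε hX hT h1
  have h := (hasDerivAt_UU da db dm c1 c0 c2).const_mul (-t)
  refine ⟨_, h, ?_⟩
  have hr := riccati (a := a) (b := b) (κ2 := ‖K s‖ ^ 2) ht hb0 hb1 hb2
    (abs_MM_le hε X T s h1) (sq_nonneg _) (curv_bound hε X T K s h1 h0)
  have e1 : 2 * b / t = NN ε X s := by rw [hb]; field_simp
  rw [e1] at hr
  have e2 : t / 2 + t * MM ε X T s / 2 = t * ((1 + MM ε X T s) / 2) := by ring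
  have e3 : t / 2 - t * MM ε X T s / 2 = t * ((1 - MM ε X T s) / 2) := by ring
  rw [e2, e3]
  exact hr

end Pool.Agent.N537.OV
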