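import Mathlib
import Pool.Agent.N537.OV.Arc

set_option autoImplicit false

open Set Real MeasureTheory Filter Topology

namespace Pool.Agent.N537.OV

variable {E : Type*} [NormedAddCommGroup E] [InnerProductSpace ℝ E]

lemma inner_TK {T K : ℝ → E} (hT : ∀ s, HasDerivAt T (K s) s) (h1 : ∀ s, ‖T s‖ = 1) (s : ℝ) :
    inner ℝ (T s) (K s) = 0 := by
  have h := (hT s).norm_sq
  have e : (fun s => ‖T s‖ ^ 2) = fun _ => (1 : ℝ) := by
    funext s; rw [h1]; norm_num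
  have h' : HasDerivAt (fun s => ‖T s‖ ^ 2) 0 s := by rw [e]; exact hasDerivAt_const s 1
  have := h.unique h'
  linarith

lemma RR_start {t A p ε : ℝ} (ht : 0 < t) (hε : 0 < ε) {X T : ℝ → E} (hX0 : X p = 0)
    (h1 : -(π / 2) < -A - t * ε / 2) (h2 : -A + t * ε / 2 < π / 2) :
    RR t A p ε X T p ≤ t * tan (A + t * ε / 2) := by
  have hN : NN ε X p = ε := by
    unfold NN
    rw [hX0]
    simp [Real.sqrt_sq hε.le]
  have hM : MM ε X T p = 0 := by
    unfold MM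
    rw [hX0]
    simp
  unfold RR
  rw [hN, hM]
  have h := (UU_bounds (a := t * (p - p) / 2 - A) (b := t * ε / 2) (μ := 0) (by positivity)
    (by simp; linarith) (by simp; linarith) (by simp)).1
  have e : t * (p - p) / 2 - A - t * ε / 2 = -(A + t * ε / 2) := by ring
  rw [e, tan_neg] at h
  nlinarith [mul_le_mul_of_nonneg_left h ht.le]

theorem arc_eps {γ T K : ℝ → E} {φ φ' : ℝ → ℝ} (hγ : ∀ s, HasDerivAt γ (T s) s)
    (hT : ∀ s, HasDerivAt T (K s) s) (hK : Continuous K) (h1 : ∀ s, ‖T s‖ = 1)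
    (hφ : ∀ s, HasDerivAt φ (φ' s) s) (hφc : Continuous φ') {p q t A₀ A₁ ε : ℝ} (hpq : p ≤ q)
    (ht : 0 < t) (hε : 0 < ε) (hA : t * ((q - p + ‖γ q - γ p‖) / 2) ≤ A₀ + A₁)
    (hA₀ : A₀ + t * ε / 2 < π / 2) (hA₁ : A₁ + t * ε / 2 < π / 2) :
    t ^ 2 * ∫ s in p..q, φ s ^ 2 ≤ (∫ s in p..q, (φ' s ^ 2 + ‖K s‖ ^ 2 * φ s ^ 2)) +
      t * tan (A₀ + t * ε / 2) * φ p ^ 2 + t * tan (A₁ + t * ε / 2) * φ q ^ 2 := by
  set X : ℝ → E := fun s => γ s - γ p with hX
  have dX : ∀ s, HasDerivAt X (T s) s := fun s => (hγ s).sub_const _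
  have hφcont : Continuous φ := continuous_iff_continuousAt.2 fun s => (hφ s).continuousAt
  -- bounds of the arguments
  have b1 : ∀ s ∈ Icc p q, t * (s - p) / 2 - A₀ + t * NN ε X s / 2 ≤ A₁ + t * ε / 2 := by
    intro s hs
    have k1 := NN_le hε X s
    have k2 : ‖X s‖ ≤ (q - s) + ‖γ q - γ p‖ := by
      have e : X s = (γ q - γ p) - (γ q - γ s) := by simp [hX]
      rw [e]
      have := norm_chord_le hγ h1 hs.2
      linarith [norm_sub_le (γ q - γ p) (γ q - γ s)]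
    nlinarith [mul_le_mul_of_nonneg_left (k1.trans (add_le_add_left k2 ε)) ht.le]
  have b2 : ∀ s ∈ Icc p q, -(A₀ + t * ε / 2) ≤ t * (s - p) / 2 - A₀ - t * NN ε X s / 2 := by
    intro s hs
    have k1 := NN_le hε X s
    have k2 : ‖X s‖ ≤ s - p := norm_chord_le hγ h1 hs.1
    nlinarith [mul_le_mul_of_nonneg_left (k1.trans (add_le_add_left k2 ε)) ht.le]
  have hex : ∀ s, ∃ v, s ∈ Icc p q → HasDerivAt (RR t A₀ p ε X T) v s ∧
      v + RR t A₀ p ε X T s ^ 2 + t ^ 2 ≤ ‖K s‖ ^ 2 := by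
    intro s
    by_cases hs : s ∈ Icc p q
    · obtain ⟨v, hv⟩ := exists_deriv_RR (A := A₀) (p := p) ht hε (dX s) (hT s) (h1 s)
        (inner_TK hT h1 s) (lt_of_le_of_lt (b1 s hs) hA₁)
        (lt_of_lt_of_le (by linarith) (b2 s hs))
      exact ⟨v, fun _ => hv⟩
    · exact ⟨0, fun h => absurd h hs⟩
  choose v hv using hex
  set R := RR t A₀ p ε X T with hR
  have hdg : ∀ s ∈ Icc p q, HasDerivAt (fun s => φ s ^ 2 * R s)
      (2 * φ s * φ' s * R s + φ s ^ 2 * v s) s := by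
    intro s hs
    have := ((hφ s).pow 2).mul (hv s hs).1
    refine this.congr_deriv ?_
    simp
  have hcont : ContinuousOn (fun s => φ s ^ 2 * R s) (Icc p q) := fun s hs =>
    (hdg s hs).continuousAt.continuousWithinAt
  have hint1 : Continuous fun s => φ' s ^ 2 + ‖K s‖ ^ 2 * φ s ^ 2 := by fun_prop
  have hint2 : Continuous fun s => t ^ 2 * φ s ^ 2 := by fun_prop
  have key := intervalIntegral.sub_le_integral_of_hasDeriv_right_of_le
    (g := fun s => φ s ^ 2 * R s) (g' := fun s => 2 * φ s * φ' s * R s + φ s ^ 2 * v s)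
    (φ := fun s => (φ' s ^ 2 + ‖K s‖ ^ 2 * φ s ^ 2) - t ^ 2 * φ s ^ 2) hpq hcont
    (fun s hs => (hdg s (Ioo_subset_Icc_self hs)).hasDerivWithinAt)
    ((hint1.sub hint2).continuousOn.integrableOn_compact isCompact_Icc)
    (fun s hs => by
      have h := (hv s (Ioo_subset_Icc_self hs)).2
      have h3 := mul_le_mul_of_nonneg_left h (sq_nonneg (φ s))
      nlinarith [sq_nonneg (φ' s - φ s * R s)])
  rw [intervalIntegral.integral_sub (hint1.intervalIntegrable _ _)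
    (hint2.intervalIntegrable _ _), intervalIntegral.integral_const_mul] at key
  -- the boundary values
  have hA₀' : -(π / 2) < -A₀ - t * ε / 2 := by linarith
  have hL : 0 ≤ q - p + ‖γ q - γ p‖ := by have := norm_nonneg (γ q - γ p); linarith
  have hstart : R p ≤ t * tan (A₀ + t * ε / 2) := by
    refine RR_start ht hε (by simp [hX]) hA₀' ?_
    have := mul_nonneg ht.le (div_nonneg hL (by norm_num : (0:ℝ) ≤ 2))
    linarith
  have hend : -(t * tan (A₁ + t * ε / 2)) ≤ R q := by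
    have hq : q ∈ Icc p q := ⟨hpq, le_rfl⟩
    have u1 := b1 q hq
    have u2 := b2 q hq
    have hNq := NN_pos hε X q
    have h := (UU_bounds (a := t * (q - p) / 2 - A₀) (b := t * NN ε X q / 2)
      (μ := MM ε X T q) (by positivity) (lt_of_le_of_lt u1 hA₁)
      (lt_of_lt_of_le (by linarith) u2) (abs_MM_le hε X T q (h1 q))).2
    have hmono : tan (t * (q - p) / 2 - A₀ + t * NN ε X q / 2) ≤ tan (A₁ + t * ε / 2) := by
      refine strictMonoOn_tan.monotoneOn ⟨?_, ?_⟩ ⟨?_, hA₁⟩ u1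
      · have : 0 < t * NN ε X q / 2 := by positivity
        linarith
      · linarith
      · have : 0 < t * NN ε X q / 2 := by positivity
        linarith
    have h3 := mul_le_mul_of_nonneg_left (h.trans hmono) ht.le
    rw [hR]
    unfold RR
    linarith
  have e1 := mul_le_mul_of_nonneg_left hstart (sq_nonneg (φ p))
  have e2 := mul_le_mul_of_nonneg_left hend (sq_nonneg (φ q))
  nlinarith [key, e1, e2]

lemma tendsto_tan_term {A c x : ℝ} (hA : A < π / 2 ∨ x = 0) (hA' : -(π / 2) < A) :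
    Tendsto (fun η : ℝ => tan (A - η * c) * x) (𝓝 0) (𝓝 (tan A * x)) := by
  rcases hA with h | h
  · have hc : ContinuousAt tan (A - 0 * c) := by
      rw [zero_mul, sub_zero]
      exact continuousAt_tan.2 (cos_pos_of_mem_Ioo ⟨hA', h⟩).ne'
    have h2 : ContinuousAt (fun η : ℝ => A - η * c) 0 := by fun_prop
    have h3 : ContinuousAt (fun η : ℝ => tan (A - η * c) * x) 0 :=
      (ContinuousAt.comp (f := fun η : ℝ => A - η * c) (g := tan) hc h2).mul continuousAt_const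
    have := h3.tendsto
    simpa using this
  · subst h
    simp

theorem arc {γ T K : ℝ → E} {φ φ' : ℝ → ℝ} (hγ : ∀ s, HasDerivAt γ (T s) s)
    (hT : ∀ s, HasDerivAt T (K s) s) (hK : Continuous K) (h1 : ∀ s, ‖T s‖ = 1)
    (hφ : ∀ s, HasDerivAt φ (φ' s) s) (hφc : Continuous φ') {p q t A₀ A₁ : ℝ} (hpq : p < q)
    (ht : 0 < t) (hA : t * ((q - p + ‖γ q - γ p‖) / 2) ≤ A₀ + A₁)
    (hA₀ : A₀ ≤ π / 2) (hA₁ : A₁ ≤ π / 2) (h₀ : A₀ = π / 2 → φ p = 0)
    (h₁ : A₁ = π / 2 → φ q = 0) :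
    t ^ 2 * ∫ s in p..q, φ s ^ 2 ≤ (∫ s in p..q, (φ' s ^ 2 + ‖K s‖ ^ 2 * φ s ^ 2)) +
      t * tan A₀ * φ p ^ 2 + t * tan A₁ * φ q ^ 2 := by
  set L : ℝ := q - p + ‖γ q - γ p‖ with hL
  have hLpos : 0 < L := by have := norm_nonneg (γ q - γ p); linarith
  set c : ℝ := t * L / 8 with hc
  have hcpos : 0 < c := by positivity
  have htL : 0 < t * (L / 2) := by positivity
  have hlow₀ : -(π / 2) < A₀ := by linarith
  have hlow₁ : -(π / 2) < A₁ := by linarith
  have key : ∀ η ∈ Ioo (0 : ℝ) 1, (t * (1 - η)) ^ 2 * ∫ s in p..q, φ s ^ 2 ≤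
      (∫ s in p..q, (φ' s ^ 2 + ‖K s‖ ^ 2 * φ s ^ 2)) +
      t * (1 - η) * (tan (A₀ - η * c) * φ p ^ 2) + t * (1 - η) * (tan (A₁ - η * c) * φ q ^ 2) := by
    intro η hη
    obtain ⟨η0, η1⟩ := hη
    have ht' : 0 < t * (1 - η) := mul_pos ht (by linarith)
    have hη : 0 < η * c := by positivity
    have e : t * (1 - η) * (2 * (η * c) / (t * (1 - η))) / 2 = η * c := by
      field_simp
    have h := arc_eps (A₀ := A₀ - 2 * (η * c)) (A₁ := A₁ - 2 * (η * c))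
      (ε := 2 * (η * c) / (t * (1 - η))) hγ hT hK h1 hφ hφc hpq.le ht' (by positivity)
      (by rw [← hL, hc]; nlinarith) (by rw [e]; linarith) (by rw [e]; linarith)
    rw [e] at h
    have e2 : A₀ - 2 * (η * c) + η * c = A₀ - η * c := by ring
    have e3 : A₁ - 2 * (η * c) + η * c = A₁ - η * c := by ring
    rw [e2, e3] at h
    linarith
  have hd0 : A₀ < π / 2 ∨ φ p ^ 2 = 0 := by
    rcases hA₀.lt_or_eq with h | h
    · exact Or.inl h
    · right; rw [h₀ h]; norm_num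
  have hd1 : A₁ < π / 2 ∨ φ q ^ 2 = 0 := by
    rcases hA₁.lt_or_eq with h | h
    · exact Or.inl h
    · right; rw [h₁ h]; norm_num
  have ht1 : Tendsto (fun η : ℝ => t * (1 - η)) (𝓝 0) (𝓝 t) := by
    have : ContinuousAt (fun η : ℝ => t * (1 - η)) 0 := by fun_prop
    have h := this.tendsto
    simpa using h
  have lim1 : Tendsto (fun η : ℝ => (t * (1 - η)) ^ 2 * ∫ s in p..q, φ s ^ 2) (𝓝[>] 0)
      (𝓝 (t ^ 2 * ∫ s in p..q, φ s ^ 2)) :=
    ((ht1.pow 2).mul_const _).mono_left nhdsWithin_le_nhds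
  have lim2 : Tendsto (fun η : ℝ => (∫ s in p..q, (φ' s ^ 2 + ‖K s‖ ^ 2 * φ s ^ 2)) +
      t * (1 - η) * (tan (A₀ - η * c) * φ p ^ 2) + t * (1 - η) * (tan (A₁ - η * c) * φ q ^ 2))
      (𝓝[>] 0) (𝓝 ((∫ s in p..q, (φ' s ^ 2 + ‖K s‖ ^ 2 * φ s ^ 2)) +
      t * (tan A₀ * φ p ^ 2) + t * (tan A₁ * φ q ^ 2))) :=
    (((ht1.mul (tendsto_tan_term hd0 hlow₀)).const_add _).add
      (ht1.mul (tendsto_tan_term hd1 hlow₁))).mono_left nhdsWithin_le_nhds
  have hev : ∀ᶠ η in 𝓝[>] (0:ℝ), (t * (1 - η)) ^ 2 * ∫ s in p..q, φ s ^ 2 ≤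
      (∫ s in p..q, (φ' s ^ 2 + ‖K s‖ ^ 2 * φ s ^ 2)) +
      t * (1 - η) * (tan (A₀ - η * c) * φ p ^ 2) + t * (1 - η) * (tan (A₁ - η * c) * φ q ^ 2) := by
    filter_upwards [Ioo_mem_nhdsGT (zero_lt_one : (0:ℝ) < 1)] with η hη using key η hη
  have := le_of_tendsto_of_tendsto lim1 lim2 hev
  linarith

end Pool.Agent.N537.OV
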